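import Mathlib
import Pool.Agent.Lib.helper23.BLI

set_option autoImplicit false

namespace Pool.Agent.Results.MP_d0fcce_an.Main

open Pool.Agent.Lib.helper23.BL

theorem result (A : Type) [BanachLattice A] [TopologicalSpace.SeparableSpace A]
    (h : Semiprojective A) : Projective A := fun _ _ J T hT _ hε =>
  h.lift (ContinuousLinearMap.id ℝ A) isHom_id ContinuousLinearMap.norm_id_le J T hT hε

end Pool.Agent.Results.MP_d0fcce_an.Main
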